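import Pool.Agent.H78.STN.Stmts2

/-!
# Board STO, row FI4: the known cycles
-/

set_option autoImplicit false

open Finset Pool.Agent.H40.COL

namespace Pool.STN

/-- the union of the known cycles -/
def fi4_S : Finset ℕ :=
  {1, 2, 3, 4, 5, 6, 7, 9, 44, 59, 79, 105, 70, 93, 62, 83, 111, 74, 99, 66}

theorem fi4_closed : ∀ x ∈ fi4_S, F x ∈ fi4_S := by decide

theorem fi4_orbit (x : ℕ) (hx : x ∈ fi4_S) (j : ℕ) : F^[j] x ∈ fi4_S := by
  induction j with
  | zero => exact hx
  | succ j ih =>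
    rw [Function.iterate_succ_apply']
    exact fi4_closed _ ih

theorem FI4_thm (hISF : ISFStmt) (hSUM : SUMStmt) (hCH4 : CH4Stmt) (hENU : ENUStmt)
    (hROT : ROTStmt) (hESC : ESCStmt) (hLEA : LEAStmt) (hTRI : TRIStmt) (hFEQ : FEQStmt) :
    FI4Stmt := by
  intro f hf m k hm hk hper hcard
  have hFe := fun i => (hFEQ f hf m hm i).1
  have hperF : F^[k] m = m := by rw [← hFe k]; exact hper
  have hlm : lm F m k ≤ 4 := by
    unfold lm
    simp only [hFe] at hcard
    exact hcard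
  rcases Nat.lt_or_ge m 2 with h1 | h2
  · have : m = 1 := by omega
    rw [this]
    decide
  obtain ⟨i, hmin, hge, hev, hn3⟩ := hLEA m k h2 hk hperF
  obtain ⟨hall, hperi, -, -, -, -⟩ := hTRI m k h2 hk hperF
  obtain ⟨hper0, hlm0⟩ := hROT F m k i hperF
  have hmin0 : ∀ j, F^[i] m ≤ F^[j] (F^[i] m) := by
    intro j
    rw [← Function.iterate_add_apply]
    exact hmin _
  have hall0 : ∀ j, 2 ≤ F^[j] (F^[i] m) := fun j => hge.trans (hmin0 j)
  set m0 := F^[i] m with hm0
  have hlm4 : lm F m0 k ≤ 4 := by rw [hlm0]; exact hlm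
  have hlog : 0 ≤ Real.log (m0 : ℝ) := Real.log_natCast_nonneg m0
  have hlen : (k : ℝ) ≤ 972 * Real.log m0 := by
    have hc := cyc_len (f := F) hISF (j0 := 0) hk hper0 hall0
    have e0 : F^[0] m0 = m0 := rfl
    rw [e0] at hc
    have hcard4 : ((3 : ℝ) ^ ((range k).filter fun j => F^[j + 1] m0 < F^[j] m0 ∧
      F^[j + 1] m0 < F^[j + 2] m0).card) ≤ 3 ^ 4 :=
      pow_le_pow_right₀ (by norm_num) hlm4
    have hc2 : (k : ℝ) ≤ 12 * 3 ^ ((range k).filter fun j => F^[j + 1] m0 < F^[j] m0 ∧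
      F^[j + 1] m0 < F^[j + 2] m0).card * Real.log m0 := by
      convert hc using 5
    calc (k : ℝ) ≤ 12 * 3 ^ ((range k).filter fun j => F^[j + 1] m0 < F^[j] m0 ∧
        F^[j + 1] m0 < F^[j + 2] m0).card * Real.log m0 := hc2
      _ ≤ 12 * 3 ^ 4 * Real.log m0 :=
          mul_le_mul_of_nonneg_right (mul_le_mul_of_nonneg_left hcard4 (by norm_num)) hlog
      _ = 972 * Real.log m0 := by norm_num
  obtain ⟨U, hU, hsum⟩ := hSUM m0 k m0 hk hper0 hge hmin0
  have hm1 : (0 : ℝ) < (m0 : ℝ) - 1 := by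
    have : (2 : ℝ) ≤ (m0 : ℝ) := by exact_mod_cast hge
    linarith
  have hsum4 : |((k + U : ℕ) : ℝ) * Real.log 2 - (k : ℝ) * Real.log 3| ≤ 4 / ((m0 : ℝ) - 1) := by
    refine hsum.trans ?_
    have : (lm F m0 k : ℝ) ≤ 4 := by exact_mod_cast hlm4
    exact div_le_div_of_nonneg_right this hm1.le
  have hbig : m0 ≤ 100001 := hCH4 k U m0 hk hU hge hlen hsum4
  have hS : m0 ∈ fi4_S := by
    by_contra hcon
    have h5 : 5 ≤ m0 ∧ m0 ≠ 44 ∧ m0 ≠ 62 ∧ m0 ≠ 70 ∧ m0 ≠ 74 := by
      refine ⟨?_, ?_, ?_, ?_, ?_⟩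
      · by_contra h5
        have : m0 = 2 ∨ m0 = 4 := by omega
        rcases this with h | h
        · exact hcon (by rw [h]; decide)
        · exact hcon (by rw [h]; decide)
      · intro h
        exact hcon (by rw [h]; decide)
      · intro h
        exact hcon (by rw [h]; decide)
      · intro h
        exact hcon (by rw [h]; decide)
      · intro h
        exact hcon (by rw [h]; decide)
    have hesc := hENU m0 hbig hev hn3 h5.1 h5.2.1 h5.2.2.1 h5.2.2.2.1 h5.2.2.2.2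
    have h5l := hESC m0 k hge hk hper0 hev hn3 hesc
    omega
  have hback : F^[i * (k - 1)] m0 = m := by
    rw [hm0, ← Function.iterate_add_apply]
    have e : i * (k - 1) + i = k * i := by
      obtain ⟨k', rfl⟩ : ∃ k', k = k' + 1 := ⟨k - 1, by omega⟩
      rw [Nat.add_sub_cancel]
      ring
    rw [e]
    exact (Function.IsPeriodicPt.mul_const (show Function.IsPeriodicPt F k m from hperF) i)
  have hfin := fi4_orbit m0 hS (i * (k - 1))
  rw [hback] at hfin
  exact hfin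

end Pool.STN
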