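import Pool.Agent.H78.STN.Stmts

/-!
# Board STN, row PBD: `150 |P| ≤ x ^ 3` on `[6, 9]` (Bernstein certificates on four intervals)
-/

set_option autoImplicit false

open Polynomial

namespace Pool.STN

theorem pbd_0 (x : ℝ) (h1 : 6 / 1 ≤ x) (h2 : x ≤ 27 / 4) :
    0 ≤ x ^ 3 + 150 * ((x - 6) ^ 3 * (x - 8) ^ 2 * (x - 9)) := by
  have ha : 0 ≤ x - 6 / 1 := sub_nonneg.2 h1
  have hb : 0 ≤ 27 / 4 - x := sub_nonneg.2 h2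
  have e : x ^ 3 + 150 * ((x - 6) ^ 3 * (x - 8) ^ 2 * (x - 9)) =
      (32768 / 27) * ((x - 6 / 1) ^ 0 * (27 / 4 - x) ^ 6) +
      (69632 / 9) * ((x - 6 / 1) ^ 1 * (27 / 4 - x) ^ 5) +
      (184832 / 9) * ((x - 6 / 1) ^ 2 * (27 / 4 - x) ^ 4) +
      (669248 / 27) * ((x - 6 / 1) ^ 3 * (27 / 4 - x) ^ 3) +
      (43712 / 3) * ((x - 6 / 1) ^ 4 * (27 / 4 - x) ^ 2) +
      (12376 / 3) * ((x - 6 / 1) ^ 5 * (27 / 4 - x) ^ 1) +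
      (478 / 1) * ((x - 6 / 1) ^ 6 * (27 / 4 - x) ^ 0) := by ring
  rw [e]
  positivity

theorem pbd_1 (x : ℝ) (h1 : 27 / 4 ≤ x) (h2 : x ≤ 15 / 2) :
    0 ≤ x ^ 3 + 150 * ((x - 6) ^ 3 * (x - 8) ^ 2 * (x - 9)) := by
  have ha : 0 ≤ x - 27 / 4 := sub_nonneg.2 h1
  have hb : 0 ≤ 15 / 2 - x := sub_nonneg.2 h2
  have e : x ^ 3 + 150 * ((x - 6) ^ 3 * (x - 8) ^ 2 * (x - 9)) =
      (478 / 1) * ((x - 27 / 4) ^ 0 * (15 / 2 - x) ^ 6) +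
      (4832 / 3) * ((x - 27 / 4) ^ 1 * (15 / 2 - x) ^ 5) +
      (5992 / 3) * ((x - 27 / 4) ^ 2 * (15 / 2 - x) ^ 4) +
      (87616 / 27) * ((x - 27 / 4) ^ 3 * (15 / 2 - x) ^ 3) +
      (55840 / 9) * ((x - 27 / 4) ^ 4 * (15 / 2 - x) ^ 2) +
      (44800 / 9) * ((x - 27 / 4) ^ 5 * (15 / 2 - x) ^ 1) +
      (35200 / 27) * ((x - 27 / 4) ^ 6 * (15 / 2 - x) ^ 0) := by ring
  rw [e]
  positivity

theorem pbd_2 (x : ℝ) (h1 : 15 / 2 ≤ x) (h2 : x ≤ 33 / 4) :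
    0 ≤ x ^ 3 + 150 * ((x - 6) ^ 3 * (x - 8) ^ 2 * (x - 9)) := by
  have ha : 0 ≤ x - 15 / 2 := sub_nonneg.2 h1
  have hb : 0 ≤ 33 / 4 - x := sub_nonneg.2 h2
  have e : x ^ 3 + 150 * ((x - 6) ^ 3 * (x - 8) ^ 2 * (x - 9)) =
      (35200 / 27) * ((x - 15 / 2) ^ 0 * (33 / 4 - x) ^ 6) +
      (32000 / 3) * ((x - 15 / 2) ^ 1 * (33 / 4 - x) ^ 5) +
      (311840 / 9) * ((x - 15 / 2) ^ 2 * (33 / 4 - x) ^ 4) +
      (55872 / 1) * ((x - 15 / 2) ^ 3 * (33 / 4 - x) ^ 3) +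
      (414904 / 9) * ((x - 15 / 2) ^ 4 * (33 / 4 - x) ^ 2) +
      (54208 / 3) * ((x - 15 / 2) ^ 5 * (33 / 4 - x) ^ 1) +
      (73034 / 27) * ((x - 15 / 2) ^ 6 * (33 / 4 - x) ^ 0) := by ring
  rw [e]
  positivity

theorem pbd_3 (x : ℝ) (h1 : 33 / 4 ≤ x) (h2 : x ≤ 9 / 1) :
    0 ≤ x ^ 3 + 150 * ((x - 6) ^ 3 * (x - 8) ^ 2 * (x - 9)) := by
  have ha : 0 ≤ x - 33 / 4 := sub_nonneg.2 h1
  have hb : 0 ≤ 9 / 1 - x := sub_nonneg.2 h2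
  have e : x ^ 3 + 150 * ((x - 6) ^ 3 * (x - 8) ^ 2 * (x - 9)) =
      (73034 / 27) * ((x - 33 / 4) ^ 0 * (9 / 1 - x) ^ 6) +
      (129512 / 9) * ((x - 33 / 4) ^ 1 * (9 / 1 - x) ^ 5) +
      (249344 / 9) * ((x - 33 / 4) ^ 2 * (9 / 1 - x) ^ 4) +
      (619712 / 27) * ((x - 33 / 4) ^ 3 * (9 / 1 - x) ^ 3) +
      (9472 / 1) * ((x - 33 / 4) ^ 4 * (9 / 1 - x) ^ 2) +
      (19456 / 3) * ((x - 33 / 4) ^ 5 * (9 / 1 - x) ^ 1) +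
      (4096 / 1) * ((x - 33 / 4) ^ 6 * (9 / 1 - x) ^ 0) := by ring
  rw [e]
  positivity

theorem PBD_thm : PBDStmt := by
  intro x h6 h9
  have hle : (x - 6) ^ 3 * (x - 8) ^ 2 * (x - 9) ≤ 0 := by
    have h1 : 0 ≤ (x - 6) ^ 3 := pow_nonneg (by linarith) 3
    have h2 : 0 ≤ (x - 8) ^ 2 := sq_nonneg _
    exact mul_nonpos_of_nonneg_of_nonpos (mul_nonneg h1 h2) (by linarith)
  rw [abs_of_nonpos hle]
  have key : 0 ≤ x ^ 3 + 150 * ((x - 6) ^ 3 * (x - 8) ^ 2 * (x - 9)) := by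
    rcases le_total x (27 / 4) with ha | ha
    · exact pbd_0 x (by linarith) ha
    · rcases le_total x (15 / 2) with hb | hb
      · exact pbd_1 x ha hb
      · rcases le_total x (33 / 4) with hc | hc
        · exact pbd_2 x hb hc
        · exact pbd_3 x hc (by linarith)
  linarith

end Pool.STN
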